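import Mathlib

/-!
# Sums over partitions weighted by chains of binomial coefficients
-/

open Finset

namespace Pool.Agent.X13.PS

/-- 1-indexed entries of a tuple, extended by zero. -/
def lam {n N : ℕ} (p : Fin n → Fin (N + 1)) (i : ℕ) : ℕ :=
  if h : 1 ≤ i ∧ i ≤ n then (p ⟨i - 1, by omega⟩ : ℕ) else 0

lemma lam_cons_one {n N : ℕ} (b : Fin (N + 1)) (p : Fin n → Fin (N + 1)) :
    lam (Fin.cons b p : Fin (n + 1) → Fin (N + 1)) 1 = b := by
  unfold lam
  rw [dif_pos (by omega)]
  simp

lemma lam_cons_succ {n N : ℕ} (b : Fin (N + 1)) (p : Fin n → Fin (N + 1)) (i : ℕ) (hi : 1 ≤ i) :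
    lam (Fin.cons b p : Fin (n + 1) → Fin (N + 1)) (i + 1) = lam p i := by
  unfold lam
  by_cases h : i ≤ n
  · rw [dif_pos (by omega), dif_pos (by omega)]
    obtain ⟨j, rfl⟩ : ∃ j, i = j + 1 := ⟨i - 1, by omega⟩
    have : (⟨j + 1 + 1 - 1, by omega⟩ : Fin (n + 1)) = Fin.succ ⟨j + 1 - 1, by omega⟩ := by
      ext; simp
    rw [this, Fin.cons_succ]
  · rw [dif_neg (by omega), dif_neg (by omega)]

variable {R : Type*} [CommRing R]

/-- The value of the nested chain: `g_m(w) = w_1 (1 + w_2 (1 + ⋯ (1 + w_m)))`. -/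
def nest : (m : ℕ) → (ℕ → R) → R
  | 0, _ => 0
  | (m + 1), w => w 1 * (1 + nest m (fun i => w (i + 1)))

lemma chain_sum (N : ℕ) : ∀ (m : ℕ) (w : ℕ → R) (a : ℕ), a ≤ N →
    (∑ p : Fin m → Fin (N + 1), ((a.choose (lam p 1) : ℕ) : R) *
      ∏ i ∈ Finset.range m, (w (i + 1) ^ lam p (i + 1) *
        (((lam p (i + 1)).choose (lam p (i + 2)) : ℕ) : R))) = (1 + nest m w) ^ a := by
  intro m
  induction m with
  | zero =>
    intro w a _
    simp [nest, lam]
  | succ m ih =>
    intro w a ha
    rw [← (Fin.consEquiv (fun _ : Fin (m + 1) => Fin (N + 1))).sum_comp,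
      Fintype.sum_prod_type]
    have step : ∀ b : Fin (N + 1),
        (∑ q : Fin m → Fin (N + 1),
          ((a.choose (lam ((Fin.consEquiv (fun _ : Fin (m + 1) => Fin (N + 1))) (b, q)) 1) : ℕ) : R) *
          ∏ i ∈ Finset.range (m + 1),
            (w (i + 1) ^ lam ((Fin.consEquiv (fun _ : Fin (m + 1) => Fin (N + 1))) (b, q)) (i + 1) *
              (((lam ((Fin.consEquiv (fun _ : Fin (m + 1) => Fin (N + 1))) (b, q)) (i + 1)).choose
                (lam ((Fin.consEquiv (fun _ : Fin (m + 1) => Fin (N + 1))) (b, q)) (i + 2)) : ℕ) : R))) =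
        ((a.choose b : ℕ) : R) * (w 1 * (1 + nest m (fun i => w (i + 1)))) ^ (b : ℕ) := by
      intro b
      rw [mul_pow, ← ih (fun i => w (i + 1)) b (by omega), Finset.mul_sum, Finset.mul_sum]
      refine Finset.sum_congr rfl fun q _ => ?_
      have e : (Fin.consEquiv (fun _ : Fin (m + 1) => Fin (N + 1))) (b, q) =
        (Fin.cons b q : Fin (m + 1) → Fin (N + 1)) := rfl
      rw [e, Finset.prod_range_succ', zero_add, zero_add, lam_cons_one,
        (show lam (Fin.cons b q : Fin (m + 1) → Fin (N + 1)) 2 = lam q 1 from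
          lam_cons_succ b q 1 le_rfl)]
      have : ∀ i ∈ Finset.range m,
          (w (i + 1 + 1) ^ lam (Fin.cons b q : Fin (m + 1) → Fin (N + 1)) (i + 1 + 1) *
            (((lam (Fin.cons b q : Fin (m + 1) → Fin (N + 1)) (i + 1 + 1)).choose
              (lam (Fin.cons b q : Fin (m + 1) → Fin (N + 1)) (i + 1 + 2)) : ℕ) : R)) =
          (w (i + 1 + 1) ^ lam q (i + 1) *
            (((lam q (i + 1)).choose (lam q (i + 2)) : ℕ) : R)) := by
        intro i _
        rw [lam_cons_succ b q (i + 1) (by omega), show i + 1 + 2 = (i + 2) + 1 by ring,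
          lam_cons_succ b q (i + 2) (by omega)]
      rw [Finset.prod_congr rfl this]
      ring
    rw [Finset.sum_congr rfl fun b _ => step b]
    rw [Fin.sum_univ_eq_sum_range (fun b => ((a.choose b : ℕ) : R) *
      (w 1 * (1 + nest m (fun i => w (i + 1)))) ^ b) (N + 1)]
    have hsub : Finset.range (a + 1) ⊆ Finset.range (N + 1) := by
      intro x hx
      rw [Finset.mem_range] at *
      omega
    rw [← Finset.sum_subset hsub]
    · rw [show (1 : R) + nest (m + 1) w = w 1 * (1 + nest m (fun i => w (i + 1))) + 1 by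
        rw [nest]; ring, add_pow]
      refine Finset.sum_congr rfl fun b _ => ?_
      rw [one_pow]
      ring
    · intro x _ hx
      rw [Finset.mem_range] at hx
      rw [Nat.choose_eq_zero_of_lt (by omega)]
      simp

/-- The full sum with a statistic depending on the first entry. -/
lemma full_sum (N m : ℕ) (w : ℕ → R) (f : ℕ → R) :
    (∑ p : Fin (m + 1) → Fin (N + 1), f (lam p 1) *
      ∏ i ∈ Finset.range (m + 1), (w (i + 1) ^ lam p (i + 1) *
        (((lam p (i + 1)).choose (lam p (i + 2)) : ℕ) : R))) =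
    ∑ b ∈ Finset.range (N + 1), f b * (nest (m + 1) w) ^ b := by
  rw [← (Fin.consEquiv (fun _ : Fin (m + 1) => Fin (N + 1))).sum_comp,
      Fintype.sum_prod_type, ← Fin.sum_univ_eq_sum_range (fun b => f b * (nest (m + 1) w) ^ b) (N + 1)]
  refine Finset.sum_congr rfl fun b _ => ?_
  rw [nest, mul_pow, ← chain_sum N m (fun i => w (i + 1)) b (by omega), Finset.mul_sum,
    Finset.mul_sum]
  refine Finset.sum_congr rfl fun q _ => ?_
  have e : (Fin.consEquiv (fun _ : Fin (m + 1) => Fin (N + 1))) (b, q) =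
    (Fin.cons b q : Fin (m + 1) → Fin (N + 1)) := rfl
  rw [e, Finset.prod_range_succ', zero_add, zero_add, lam_cons_one,
    (show lam (Fin.cons b q : Fin (m + 1) → Fin (N + 1)) 2 = lam q 1 from
      lam_cons_succ b q 1 le_rfl)]
  have : ∀ i ∈ Finset.range m,
      (w (i + 1 + 1) ^ lam (Fin.cons b q : Fin (m + 1) → Fin (N + 1)) (i + 1 + 1) *
        (((lam (Fin.cons b q : Fin (m + 1) → Fin (N + 1)) (i + 1 + 1)).choose
          (lam (Fin.cons b q : Fin (m + 1) → Fin (N + 1)) (i + 1 + 2)) : ℕ) : R)) =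
      (w (i + 1 + 1) ^ lam q (i + 1) *
        (((lam q (i + 1)).choose (lam q (i + 2)) : ℕ) : R)) := by
    intro i _
    rw [lam_cons_succ b q (i + 1) (by omega), show i + 1 + 2 = (i + 2) + 1 by ring,
      lam_cons_succ b q (i + 2) (by omega)]
  rw [Finset.prod_congr rfl this]
  ring

/-- closed form of `nest`. -/
lemma nest_eq : ∀ (m : ℕ) (w : ℕ → R),
    nest m w = ∑ k ∈ Finset.range m, ∏ i ∈ Finset.range (k + 1), w (i + 1) := by
  intro m
  induction m with
  | zero => intro w; simp [nest]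
  | succ m ih =>
    intro w
    rw [nest, ih, Finset.sum_range_succ', mul_add, Finset.mul_sum, add_comm]
    congr 1
    · refine Finset.sum_congr rfl fun k _ => ?_
      rw [Finset.prod_range_succ' _ (k + 1)]
      ring

open PowerSeries in
/-- Extraction of the coefficient of `X ^ n`. -/
lemma coeff_sum (n : ℕ) (w f : ℕ → ℚ) :
    (∑ p ∈ (Finset.univ : Finset (Fin (n + 1) → Fin (n + 2))).filter
        (fun p => ∑ i ∈ Finset.range (n + 1), lam p (i + 1) = n + 1),
      f (lam p 1) * ∏ i ∈ Finset.range (n + 1), (w (i + 1) ^ lam p (i + 1) *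
        (((lam p (i + 1)).choose (lam p (i + 2)) : ℕ) : ℚ))) =
    PowerSeries.coeff (n + 1) (∑ b ∈ Finset.range (n + 2), PowerSeries.C (f b) *
      (∑ k ∈ Finset.range (n + 1), PowerSeries.C (∏ i ∈ Finset.range (k + 1), w (i + 1)) *
        PowerSeries.X ^ (k + 1)) ^ b) := by
  have h := full_sum (R := PowerSeries ℚ) (n + 1) n (fun i => PowerSeries.C (w i) * PowerSeries.X)
    (fun b => PowerSeries.C (f b))
  rw [nest_eq] at h
  have e : ∀ k ∈ Finset.range (n + 1),
      (∏ i ∈ Finset.range (k + 1), (PowerSeries.C (w (i + 1)) * PowerSeries.X : PowerSeries ℚ)) =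
      PowerSeries.C (∏ i ∈ Finset.range (k + 1), w (i + 1)) * PowerSeries.X ^ (k + 1) := by
    intro k _
    rw [Finset.prod_mul_distrib, map_prod]
    simp
  rw [Finset.sum_congr rfl e] at h
  rw [← h, map_sum, Finset.sum_filter]
  refine Finset.sum_congr rfl fun p _ => ?_
  have e2 : (PowerSeries.C (f (lam p 1)) * ∏ i ∈ Finset.range (n + 1),
      ((PowerSeries.C (w (i + 1)) * PowerSeries.X) ^ lam p (i + 1) *
        (((lam p (i + 1)).choose (lam p (i + 2)) : ℕ) : PowerSeries ℚ))) =
      PowerSeries.C (f (lam p 1) * ∏ i ∈ Finset.range (n + 1), (w (i + 1) ^ lam p (i + 1) *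
        (((lam p (i + 1)).choose (lam p (i + 2)) : ℕ) : ℚ))) *
      PowerSeries.X ^ (∑ i ∈ Finset.range (n + 1), lam p (i + 1)) := by
    rw [← Finset.prod_pow_eq_pow_sum, map_mul, map_prod, mul_assoc, ← Finset.prod_mul_distrib]
    congr 1
    refine Finset.prod_congr rfl fun i _ => ?_
    rw [map_mul, map_pow, mul_pow, map_natCast]
    ring
  rw [e2, PowerSeries.coeff_C_mul, PowerSeries.coeff_X_pow]
  by_cases hs : ∑ i ∈ Finset.range (n + 1), lam p (i + 1) = n + 1
  · rw [if_pos hs, if_pos hs.symm, mul_one]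
  · rw [if_neg hs, if_neg (fun h => hs h.symm), mul_zero]

/-- non-antitone tuples do not contribute. -/
lemma choose_ne_zero_antitone {n N : ℕ} (p : Fin n → Fin (N + 1))
    (h : ∏ i ∈ Finset.range n, (((lam p (i + 1)).choose (lam p (i + 2)) : ℕ) : ℚ) ≠ 0) :
    ∀ i j : Fin n, i ≤ j → p j ≤ p i := by
  have h1 : ∀ i ∈ Finset.range n, lam p (i + 2) ≤ lam p (i + 1) := by
    intro i hi
    by_contra hc
    push Not at hc
    exact h (Finset.prod_eq_zero hi (by rw [Nat.choose_eq_zero_of_lt hc]; simp))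
  have h2 : ∀ (d i : ℕ), 1 ≤ i → lam p (i + d) ≤ lam p i := by
    intro d
    induction d with
    | zero => intro i _; exact le_rfl
    | succ d ih =>
      intro i hi
      refine le_trans ?_ (ih i hi)
      by_cases hd : i + d ≤ n
      · have := h1 (i + d - 1) (by rw [Finset.mem_range]; omega)
        rwa [show i + d - 1 + 2 = i + (d + 1) by omega, show i + d - 1 + 1 = i + d by omega] at this
      · unfold lam
        rw [dif_neg (by omega)]
        exact Nat.zero_le _
  intro i j hij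
  have h3 := h2 (j - i : ℕ) (i + 1) (by omega)
  have h4 : (i : ℕ) + 1 + (j - i) = j + 1 := by have : (i : ℕ) ≤ j := hij; omega
  rw [h4] at h3
  have e : ∀ k : Fin n, lam p (k + 1) = p k := by
    intro k
    unfold lam
    rw [dif_pos (by omega)]
    congr
  rw [e, e] at h3
  exact h3

end Pool.Agent.X13.PS
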