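import Pool.Agent.X13.PS.Chain

/-!
# Square roots of `1 - 2x` and the two weighted sums
-/

open Finset PowerSeries

namespace Pool.Agent.X13.PS

/-- If `(1 - 2X) S' = c S` then the coefficients of `S ^ 2` obey a first order recurrence. -/
lemma sq_rec (s : ℕ → ℚ) (c : ℚ) (hs : ∀ k : ℕ, ((k : ℚ) + 1) * s (k + 1) = (2 * k + c) * s k) (k : ℕ) :
    ((k : ℚ) + 1) * PowerSeries.coeff (k + 1) ((PowerSeries.mk s) ^ 2) =
      (2 * k + 2 * c) * PowerSeries.coeff k ((PowerSeries.mk s) ^ 2) := by
  have hode : PowerSeries.derivative ℚ (PowerSeries.mk s) =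
      PowerSeries.C 2 * (PowerSeries.X * PowerSeries.derivative ℚ (PowerSeries.mk s)) +
        PowerSeries.C c * PowerSeries.mk s := by
    ext n
    rw [map_add, PowerSeries.coeff_C_mul, PowerSeries.coeff_C_mul]
    cases n with
    | zero =>
      simp only [PowerSeries.coeff_derivative, PowerSeries.coeff_mk, PowerSeries.coeff_zero_X_mul]
      have := hs 0
      simp at this ⊢
      linarith
    | succ n =>
      rw [mul_comm PowerSeries.X, PowerSeries.coeff_succ_mul_X]
      simp only [PowerSeries.coeff_derivative, PowerSeries.coeff_mk]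
      have := hs (n + 1)
      push_cast at this ⊢
      linarith
  have hode2 : PowerSeries.derivative ℚ ((PowerSeries.mk s) ^ 2) =
      PowerSeries.C 2 * (PowerSeries.X * PowerSeries.derivative ℚ ((PowerSeries.mk s) ^ 2)) +
        PowerSeries.C (2 * c) * (PowerSeries.mk s) ^ 2 := by
    have e : PowerSeries.derivative ℚ ((PowerSeries.mk s) ^ 2) =
        2 * PowerSeries.mk s * PowerSeries.derivative ℚ (PowerSeries.mk s) := by
      rw [pow_two, Derivation.leibniz, smul_eq_mul]
      ring
    rw [e]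
    conv_lhs => rw [hode]
    rw [map_mul]
    have : (PowerSeries.C (2 : ℚ)) = 2 := by exact map_ofNat _ 2
    rw [this]
    ring
  have h := congrArg (PowerSeries.coeff k) hode2
  rw [map_add, PowerSeries.coeff_C_mul, PowerSeries.coeff_C_mul] at h
  cases k with
  | zero =>
    simp only [PowerSeries.coeff_derivative, PowerSeries.coeff_zero_X_mul] at h
    simp only [Nat.cast_zero, zero_add, one_mul, mul_zero] at h ⊢
    linarith
  | succ k =>
    rw [mul_comm PowerSeries.X, PowerSeries.coeff_succ_mul_X] at h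
    simp only [PowerSeries.coeff_derivative] at h
    push_cast at h ⊢
    linarith

lemma coeff_zero_sq (s : ℕ → ℚ) (h0 : s 0 = 1) :
    PowerSeries.coeff 0 ((PowerSeries.mk s) ^ 2) = 1 := by
  rw [PowerSeries.coeff_zero_eq_constantCoeff, map_pow, ← PowerSeries.coeff_zero_eq_constantCoeff,
    PowerSeries.coeff_mk, h0, one_pow]

lemma sq_neg (s : ℕ → ℚ) (h0 : s 0 = 1)
    (hs : ∀ k : ℕ, ((k : ℚ) + 1) * s (k + 1) = (2 * k + (-1)) * s k) :
    (PowerSeries.mk s) ^ 2 = 1 - PowerSeries.C 2 * PowerSeries.X := by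
  have hr := sq_rec s (-1) hs
  have h1 : PowerSeries.coeff 1 ((PowerSeries.mk s) ^ 2) = -2 := by
    have := hr 0
    rw [coeff_zero_sq s h0] at this
    simp at this
    exact this
  have h2 : ∀ k, PowerSeries.coeff (k + 2) ((PowerSeries.mk s) ^ 2) = 0 := by
    intro k
    induction k with
    | zero =>
      have := hr 1
      simp only [Nat.cast_one] at this
      norm_num at this
      simpa using this
    | succ k ih =>
      have := hr (k + 2)
      rw [ih, mul_zero] at this
      have h3 : ((k + 2 : ℕ) : ℚ) + 1 ≠ 0 := by positivity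
      exact (mul_eq_zero.1 this).resolve_left h3
  ext n
  rcases n with _ | _ | n
  · rw [coeff_zero_sq s h0]
    simp
  · rw [zero_add, h1]
    simp [PowerSeries.coeff_X, PowerSeries.coeff_one]
  · rw [h2]
    simp [PowerSeries.coeff_X, PowerSeries.coeff_one]

lemma sq_pos (s : ℕ → ℚ) (h0 : s 0 = 1)
    (hs : ∀ k : ℕ, ((k : ℚ) + 1) * s (k + 1) = (2 * k + 1) * s k) :
    (PowerSeries.mk s) ^ 2 * (1 - PowerSeries.C 2 * PowerSeries.X) = 1 := by
  have hr := sq_rec s 1 hs
  have h2 : ∀ k, PowerSeries.coeff (k + 1) ((PowerSeries.mk s) ^ 2) =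
      2 * PowerSeries.coeff k ((PowerSeries.mk s) ^ 2) := by
    intro k
    have := hr k
    have h3 : (k : ℚ) + 1 ≠ 0 := by positivity
    apply mul_left_cancel₀ h3
    rw [this]
    ring
  have e : (PowerSeries.mk s) ^ 2 * (1 - PowerSeries.C 2 * PowerSeries.X) =
      (PowerSeries.mk s) ^ 2 - PowerSeries.C 2 * ((PowerSeries.mk s) ^ 2 * PowerSeries.X) := by ring
  rw [e]
  ext n
  rw [map_sub, PowerSeries.coeff_C_mul]
  cases n with
  | zero =>
    rw [coeff_zero_sq s h0]
    simp
  | succ n =>
    rw [PowerSeries.coeff_succ_mul_X, h2]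
    simp [PowerSeries.coeff_one]

lemma tele (G : PowerSeries ℚ) (M : ℕ) :
    (1 - G) ^ 2 * ∑ b ∈ Finset.range M, PowerSeries.C ((1 : ℚ) + b) * G ^ b =
      1 + G ^ M * (PowerSeries.C (M : ℚ) * G - PowerSeries.C ((M : ℚ) + 1)) := by
  induction M with
  | zero => simp
  | succ M ih =>
    rw [Finset.sum_range_succ, mul_add, ih]
    push_cast
    simp only [map_add, map_one, map_natCast]
    ring

/-- coefficients up to `M - 1` of a product with something divisible by `X ^ M` vanish. -/
lemma coeff_of_dvd (F : PowerSeries ℚ) (M k : ℕ) (hk : k < M) (h : (PowerSeries.X ^ M) ∣ F) :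
    PowerSeries.coeff k F = 0 := by
  exact (PowerSeries.X_pow_dvd_iff.1 h) k hk

end Pool.Agent.X13.PS
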